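import Pool.Agent.W201.NT.StmT

/-! NT-MF: the homology of compact manifolds vanishes above the dimension. -/

set_option autoImplicit false

open Set Topology

namespace Pool.Agent.W701.NT.MF

open Pool.Agent.W201.NT Pool.Agent.Helper381

theorem van_homeo (h : S_HI) {X Y : Type} [TopologicalSpace X] [TopologicalSpace Y] (f : X ≃ₜ Y)
    (n : ℕ) (hX : Van X n) : Van Y n := by
  refine h X Y ⟨f, f.continuous⟩ ⟨f.symm, f.symm.continuous⟩ ?_ n hX
  have : (ContinuousMap.mk f f.continuous).comp (ContinuousMap.mk f.symm f.symm.continuous)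
      = ContinuousMap.id Y := by
    ext y
    simp
  rw [this]

theorem van_congr {X : Type} [TopologicalSpace X] {S S' : Set X} (h : S = S') {n : ℕ}
    (hS : Van ↥S n) : Van ↥S' n := by
  subst h
  exact hS

theorem van_empty {X : Type} [TopologicalSpace X] [IsEmpty X] (n : ℕ) : Van X n := by
  have : IsEmpty (Sing X n) := ⟨fun σ => IsEmpty.false (σ (vert n 0))⟩
  intro z _
  have : z = 0 := Subsingleton.elim _ _
  rw [this]
  exact Submodule.zero_mem _

theorem main : S_HI → S_MVS → S_EU → S_MF := by
  intro hHI hMVS hEU d M _ _ _ hd n hn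
  -- open subsets of charts
  have hA : ∀ (x : M) (O : Set M), IsOpen O → O ⊆ (chartAt (EuclideanSpace ℝ (Fin d)) x).source →
      ∀ n, d ≤ n → Van ↥O n := by
    intro x O hO hOs n hn
    have hV := hEU d hd _ ((chartAt (EuclideanSpace ℝ (Fin d)) x).isOpen_image_of_subset_source
      hO hOs) n hn
    exact van_homeo hHI
      ((chartAt (EuclideanSpace ℝ (Fin d)) x).homeomorphOfImageSubsetSource hOs rfl).symm n hV
  have hB : ∀ t : Finset M, ∀ n, d < n →
      Van ↥(⋃ x ∈ t, (chartAt (EuclideanSpace ℝ (Fin d)) x).source) n := by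
    classical
    intro t
    induction t using Finset.induction_on with
    | empty =>
      intro n _
      have : IsEmpty ↥(⋃ x ∈ (∅ : Finset M), (chartAt (EuclideanSpace ℝ (Fin d)) x).source) := by
        refine ⟨fun y => ?_⟩
        have := y.2
        simp at this
      exact van_empty n
    | insert a t _ ih =>
      intro n hn
      obtain ⟨m, rfl⟩ : ∃ m, n = m + 1 := ⟨n - 1, by omega⟩
      have ho : IsOpen (⋃ x ∈ t, (chartAt (EuclideanSpace ℝ (Fin d)) x).source) :=
        isOpen_biUnion fun x _ => (chartAt (EuclideanSpace ℝ (Fin d)) x).open_source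
      refine van_congr (Finset.set_biUnion_insert a t _).symm (hMVS M _ _
        (chartAt (EuclideanSpace ℝ (Fin d)) a).open_source ho m ?_ (ih (m + 1) hn) ?_)
      · exact hA a _ (chartAt (EuclideanSpace ℝ (Fin d)) a).open_source subset_rfl _ (by omega)
      · exact hA a _ ((chartAt (EuclideanSpace ℝ (Fin d)) a).open_source.inter ho)
          inter_subset_left _ (by omega)
  obtain ⟨t, ht⟩ := CompactSpace.elim_nhds_subcover
    (fun x : M => (chartAt (EuclideanSpace ℝ (Fin d)) x).source)
    (fun x => (chartAt (EuclideanSpace ℝ (Fin d)) x).open_source.mem_nhds (mem_chart_source _ x))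
  have h1 : Van ↥(Set.univ : Set M) n := van_congr ht (hB t n hn)
  exact van_homeo hHI (Homeomorph.Set.univ M) n h1

end Pool.Agent.W701.NT.MF
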